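import Pool.Agent.H867.FT.Gen4
import Mathlib.RingTheory.Derivation.MapCoeffs

/-!
# Derivation criterion for the normality of `A[T]/(f)`

Proof of `Pool.Agent.H867.FT.S_DRV`.
-/

set_option autoImplicit false

namespace Pool.Agent.H729.FT867DRV

open Polynomial

section basic

variable {A E : Type} [CommRing A] [Field E] [Algebra A E]

/-- The ideal of the elements `b` with `b z ∈ B`. -/
def J (B : Subalgebra A E) (z : E) : Ideal B where
  carrier := {b | (b : E) * z ∈ B}
  add_mem' := by
    intro a b ha hb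
    have h : ((a + b : B) : E) * z = (a : E) * z + (b : E) * z := by
      rw [Subalgebra.coe_add, add_mul]
    show ((a + b : B) : E) * z ∈ B
    rw [h]
    exact B.add_mem ha hb
  zero_mem' := by
    show ((0 : B) : E) * z ∈ B
    rw [Subalgebra.coe_zero, zero_mul]
    exact B.zero_mem
  smul_mem' := by
    intro c b hb
    have h : ((c * b : B) : E) * z = (c : E) * ((b : E) * z) := by
      rw [Subalgebra.coe_mul, mul_assoc]
    show ((c * b : B) : E) * z ∈ B
    rw [h]
    exact B.mul_mem c.2 hb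

theorem mem_J {B : Subalgebra A E} {z : E} {b : B} : b ∈ J B z ↔ (b : E) * z ∈ B := Iff.rfl

/-- For an integral `z` the product `s z`, `s ∈ J`, is in `J` if `J` is prime. -/
theorem mul_mem_J (B : Subalgebra A E) (z : E) (hz : IsIntegral A z) (hN : (J B z).IsPrime)
    (s w : B) (hs : s ∈ J B z) (hw : (w : E) = (s : E) * z) : w ∈ J B z := by
  obtain ⟨p, hpm, hp⟩ := hz
  obtain ⟨p', hp'⟩ : ∃ p' : B[X], p' = p.map (algebraMap A B) := ⟨_, rfl⟩
  have hpm' : p'.Monic := by rw [hp']; exact hpm.map _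
  have hp1 : aeval z p' = 0 := by
    rw [hp', aeval_map_algebraMap, aeval_def]
    exact hp
  have hq0 : aeval (algebraMap B E w) (scaleRoots p' s) = 0 := by
    have h1 := scaleRoots_aeval_eq_zero (r := s) hp1
    have h2 : algebraMap B E w = algebraMap B E s * z := hw
    rw [h2]
    exact h1
  rw [aeval_algebraMap_apply, coe_aeval_eq_eval] at hq0
  have hq1 : eval w (scaleRoots p' s) = 0 := Subtype.val_injective hq0
  rw [eval_eq_sum_range, Finset.sum_range_succ] at hq1
  have hlead : (scaleRoots p' s).coeff (scaleRoots p' s).natDegree = 1 :=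
    (monic_scaleRoots_iff s).2 hpm'
  rw [hlead, one_mul] at hq1
  have hsum : ∑ i ∈ Finset.range (scaleRoots p' s).natDegree, (scaleRoots p' s).coeff i * w ^ i ∈
      J B z := by
    refine Ideal.sum_mem _ fun i hi => ?_
    have hi' := Finset.mem_range.1 hi
    rw [natDegree_scaleRoots] at hi'
    rw [coeff_scaleRoots]
    refine Ideal.mul_mem_right _ _ (Ideal.mul_mem_left _ _ ?_)
    exact Ideal.pow_mem_of_mem _ hs _ (by omega)
  have hpow : w ^ (scaleRoots p' s).natDegree ∈ J B z := by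
    have h3 := eq_neg_of_add_eq_zero_right hq1
    rw [h3]
    exact (J B z).neg_mem hsum
  exact hN.mem_of_pow_mem _ hpow

theorem key (B : Subalgebra A E) (z : E) (hz : IsIntegral A z) (hN : (J B z).IsPrime)
    (s₁ s₂ α β : B) (h1 : s₁ ∈ J B z)
    (hgen : ∀ n ∈ J B z, ∃ a c : B, n = a * s₁ + c * s₂) (hβ : β ∉ J B z)
    (hrel : α * s₁ + β * s₂ = 0) (hs : s₁ ≠ 0) : False := by
  obtain ⟨w, hw⟩ : ∃ w : B, (w : E) = (s₁ : E) * z := ⟨⟨(s₁ : E) * z, h1⟩, rfl⟩
  obtain ⟨a, c, hac⟩ := hgen w (mul_mem_J B z hz hN s₁ w h1 hw)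
  apply hβ
  rw [mem_J]
  have h2 : β * w = (β * a - c * α) * s₁ := by
    rw [hac]
    linear_combination c * hrel
  have h3 : (β : E) * z = ((β * a - c * α : B) : E) := by
    have h4 : ((β * w : B) : E) = (((β * a - c * α) * s₁ : B) : E) := by rw [h2]
    rw [Subalgebra.coe_mul, Subalgebra.coe_mul, hw] at h4
    have h5 : (s₁ : E) ≠ 0 := fun h => hs (Subtype.val_injective h)
    apply mul_right_cancel₀ h5
    rw [← h4]
    ring
  rw [h3]
  exact (β * a - c * α : B).2

end basic

theorem denom {A F E : Type} [CommRing A] [IsDomain A] [Field F] [Algebra A F]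
    [IsFractionRing A F] [Field E] [Algebra F E] [Algebra A E] [IsScalarTower A F E] (x z : E)
    (hz : z ∈ Algebra.adjoin F {x}) :
    ∃ a : A, a ≠ 0 ∧ algebraMap A E a * z ∈ Algebra.adjoin A {x} := by
  rw [Algebra.adjoin_singleton_eq_range_aeval] at hz
  obtain ⟨g, hg⟩ := hz
  obtain ⟨b, hb, h⟩ := IsLocalization.integerNormalization_spec (nonZeroDivisors A) g
  refine ⟨b, nonZeroDivisors.ne_zero hb, ?_⟩
  rw [Algebra.adjoin_singleton_eq_range_aeval]
  refine ⟨IsLocalization.integerNormalization (nonZeroDivisors A) g, ?_⟩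
  have h1 : aeval x ((IsLocalization.integerNormalization (nonZeroDivisors A) g).map
      (algebraMap A F)) = aeval x (b • g) := by rw [h]
  rw [aeval_map_algebraMap, ← algebraMap_smul F b g, map_smul, Algebra.smul_def,
    ← IsScalarTower.algebraMap_apply A F E] at h1
  have h2 : aeval x g = z := hg
  rw [h2] at h1
  exact h1

/-- Ideals of `A[T]` are generated by one element modulo `π`. -/
theorem two_gen {A : Type} [CommRing A] [IsDomain A] [IsDiscreteValuationRing A] (π : A)
    (hπ : Irreducible π) (M : Ideal A[X]) :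
    ∃ g ∈ M, ∀ m ∈ M, ∃ a c : A[X], m = C π * a + c * g := by
  obtain ⟨ρ, hρ⟩ : ∃ ρ : A[X] →+* (IsLocalRing.ResidueField A)[X],
      ρ = mapRingHom (IsLocalRing.residue A) := ⟨_, rfl⟩
  have hsurj : Function.Surjective ρ := by
    rw [hρ]
    exact map_surjective _ IsLocalRing.residue_surjective
  obtain ⟨g₀, hg₀⟩ := (IsPrincipalIdealRing.principal (M.map ρ)).principal
  have hg₁ : g₀ ∈ M.map ρ := by
    rw [hg₀]
    exact Submodule.mem_span_singleton_self g₀
  obtain ⟨g, hgM, hg⟩ := (Ideal.mem_map_iff_of_surjective ρ hsurj).1 hg₁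
  refine ⟨g, hgM, fun m hm => ?_⟩
  have h1 : ρ m ∈ M.map ρ := Ideal.mem_map_of_mem ρ hm
  rw [hg₀] at h1
  obtain ⟨c₀, hc₀⟩ := Submodule.mem_span_singleton.1 h1
  obtain ⟨c, hc⟩ := hsurj c₀
  have h2 : ρ (m - c * g) = 0 := by
    rw [map_sub, map_mul, hc, hg, ← hc₀, smul_eq_mul, sub_self]
  have h3 : C π ∣ m - c * g := by
    rw [C_dvd_iff_dvd_coeff]
    intro i
    have h4 : (ρ (m - c * g)).coeff i = 0 := by rw [h2, coeff_zero]
    rw [hρ, coe_mapRingHom, coeff_map, IsLocalRing.residue_eq_zero_iff, hπ.maximalIdeal_eq,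
      Ideal.mem_span_singleton] at h4
    exact h4
  obtain ⟨a, ha⟩ := h3
  exact ⟨a, c, by rw [← ha]; ring⟩

/-- The derivation criterion. -/
theorem der {A : Type} [CommRing A] (D : Derivation ℤ A A) (f : A[X]) (u : A)
    (hD : ∀ i, D (f.coeff i) = if i = 0 then u else 0) (M : Ideal A[X]) (s g α β : A[X])
    (hs : s ∈ M) (hg : g ∈ M) (hα : α ∈ M) (hβ : β ∈ M) (hf : f = s * α + β * g) : C u ∈ M := by
  let iD : Differential A := ⟨D⟩
  have h1 : (Differential.mapCoeffs : Derivation ℤ A[X] A[X]) f = C u := by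
    ext i
    rw [Differential.coeff_mapCoeffs, coeff_C]
    exact hD i
  rw [← h1, hf, map_add, Derivation.leibniz, Derivation.leibniz]
  simp only [smul_eq_mul]
  exact M.add_mem (M.add_mem (M.mul_mem_right _ hs) (M.mul_mem_right _ hα))
    (M.add_mem (M.mul_mem_right _ hβ) (M.mul_mem_right _ hg))

theorem drv : Pool.Agent.H867.FT.S_DRV := by
  intro A F E _ _ _ _ _ _ _ _ _ _ D f u x hf hu hD hfx _ y hy hyi
  by_contra hyB
  obtain ⟨B, hB⟩ : ∃ B : Subalgebra A E, B = Algebra.adjoin A {x} := ⟨_, rfl⟩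
  rw [← hB] at hyB
  have hxi : IsIntegral A x := ⟨f, hf, hfx⟩
  have hxB : x ∈ B := by
    rw [hB]
    exact Algebra.self_mem_adjoin_singleton A x
  have hinjE : Function.Injective (algebraMap A E) := by
    rw [IsScalarTower.algebraMap_eq A F E]
    exact (algebraMap F E).injective.comp (IsFractionRing.injective A F)
  have hfin : Module.Finite A B := by
    rw [hB]
    exact Algebra.finite_adjoin_simple_of_isIntegral hxi
  have hnoeth : IsNoetherianRing B := IsNoetherianRing.of_finite A B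
  have hBint : ∀ b : B, IsIntegral A (b : E) := fun b =>
    (Algebra.IsIntegral.isIntegral (R := A) b).map B.val
  have hBF : ∀ b : B, (b : E) ∈ Algebra.adjoin F {x} := by
    intro b
    have h1 : B ≤ (Algebra.adjoin F {x}).restrictScalars A := by
      rw [hB]
      refine Algebra.adjoin_le ?_
      intro t ht
      rw [Set.mem_singleton_iff.1 ht]
      exact Algebra.self_mem_adjoin_singleton F x
    exact h1 b.2
  -- a maximal `J`
  obtain ⟨N, ⟨z, hzF, hzi, hzB, rfl⟩, hmax⟩ := set_has_maximal_iff_noetherian.2 hnoeth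
    {I : Ideal B | ∃ z : E, z ∈ Algebra.adjoin F {x} ∧ IsIntegral A z ∧ z ∉ B ∧ I = J B z}
    ⟨J B y, y, hy, hyi, hyB, rfl⟩
  have hprime : (J B z).IsPrime := by
    refine ⟨?_, ?_⟩
    · intro h
      apply hzB
      have h1 : (1 : B) ∈ J B z := by rw [h]; trivial
      rw [mem_J, Subalgebra.coe_one, one_mul] at h1
      exact h1
    · intro a b hab
      by_cases hb : b ∈ J B z
      · exact Or.inr hb
      left
      have h1 : J B z ≤ J B ((b : E) * z) := by
        intro c hc
        rw [mem_J] at hc ⊢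
        have h2 : (c : E) * ((b : E) * z) = (b : E) * ((c : E) * z) := by ring
        rw [h2]
        exact B.mul_mem b.2 hc
      have h3 := hmax (J B ((b : E) * z)) ⟨(b : E) * z, (Algebra.adjoin F {x}).mul_mem (hBF b) hzF,
        (hBint b).mul hzi, hb, rfl⟩
      have h4 : J B ((b : E) * z) ≤ J B z := by
        by_contra h5
        exact h3 (lt_of_le_not_ge h1 h5)
      apply h4
      rw [mem_J] at hab ⊢
      rw [← mul_assoc, ← Subalgebra.coe_mul]
      exact hab
  obtain ⟨π, hπ⟩ := IsDiscreteValuationRing.exists_irreducible A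
  have hπN : algebraMap A B π ∈ J B z := by
    obtain ⟨a, ha0, ha⟩ := denom (A := A) x z hzF
    rw [← hB] at ha
    obtain ⟨n, v, hv⟩ := IsDiscreteValuationRing.eq_unit_mul_pow_irreducible ha0 hπ
    have h1 : algebraMap A B a ∈ J B z := ha
    rw [hv, map_mul, map_pow] at h1
    rcases hprime.mem_or_mem h1 with h2 | h2
    · exact absurd (Ideal.eq_top_of_isUnit_mem _ h2 (v.isUnit.map (algebraMap A B))) hprime.ne_top
    · exact hprime.mem_of_pow_mem _ h2
  -- the map from `A[T]`
  obtain ⟨φ, hφ⟩ : ∃ φ : A[X] →ₐ[A] B, φ = aeval (⟨x, hxB⟩ : B) := ⟨_, rfl⟩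
  have hφv : ∀ p, ((φ p : B) : E) = aeval x p := by
    intro p
    rw [hφ, aeval_subalgebra_coe]
  have hφs : Function.Surjective φ := by
    intro b
    have h1 : (b : E) ∈ Algebra.adjoin A {x} := by rw [← hB]; exact b.2
    rw [Algebra.adjoin_singleton_eq_range_aeval] at h1
    obtain ⟨p, hp⟩ := h1
    refine ⟨p, Subtype.val_injective ?_⟩
    rw [hφv]
    exact hp
  have hφC : ∀ a : A, φ (C a) = algebraMap A B a := by
    intro a
    rw [hφ, aeval_C]
  have hφf : φ f = 0 := Subtype.val_injective ((hφv f).trans hfx)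
  obtain ⟨g, hgM, hgen⟩ := two_gen π hπ ((J B z).comap φ.toRingHom)
  have hgN : φ g ∈ J B z := hgM
  have hfM : f ∈ (J B z).comap φ.toRingHom := by
    show φ f ∈ J B z
    rw [hφf]
    exact (J B z).zero_mem
  obtain ⟨α, β, hαβ⟩ := hgen f hfM
  have hrel : φ α * algebraMap A B π + φ β * φ g = 0 := by
    rw [← hφC, ← map_mul, ← map_mul, ← map_add, mul_comm α, ← hαβ]
    exact hφf
  have hπ0 : algebraMap A B π ≠ 0 := by
    intro h
    apply hπ.ne_zero
    apply hinjE
    rw [map_zero]
    exact congrArg (fun b : B => (b : E)) h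
  have hgenB : ∀ n ∈ J B z, ∃ a c : B, n = a * algebraMap A B π + c * φ g := by
    intro n hn
    obtain ⟨m, rfl⟩ := hφs n
    obtain ⟨a, c, hac⟩ := hgen m hn
    refine ⟨φ a, φ c, ?_⟩
    rw [← hφC, ← map_mul, ← map_mul, ← map_add, mul_comm a, ← hac]
  by_cases hβ : φ β ∈ J B z
  · -- then `α ∉ M`
    have hα : φ α ∉ J B z := by
      intro hα
      have h1 := der D f u hD ((J B z).comap φ.toRingHom) (C π) g α β
        (by
          show φ (C π) ∈ J B z
          rw [hφC]
          exact hπN) hgM hα hβ hαβ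
      have h2 : φ (C u) ∈ J B z := h1
      rw [hφC] at h2
      exact hprime.ne_top (Ideal.eq_top_of_isUnit_mem _ h2 (hu.map (algebraMap A B)))
    have hg0 : φ g ≠ 0 := by
      intro h
      rw [h, mul_zero, add_zero] at hrel
      rcases mul_eq_zero.1 hrel with h1 | h1
      · apply hα
        rw [h1]
        exact (J B z).zero_mem
      · exact hπ0 h1
    refine key B z hzi hprime (φ g) (algebraMap A B π) (φ β) (φ α) hgN ?_ hα ?_ hg0
    · intro n hn
      obtain ⟨a, c, h⟩ := hgenB n hn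
      exact ⟨c, a, by rw [h, add_comm]⟩
    · rw [add_comm]
      exact hrel
  · exact key B z hzi hprime (algebraMap A B π) (φ g) (φ α) (φ β) hπN hgenB hβ hrel hπ0

end Pool.Agent.H729.FT867DRV
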