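import Pool.Agent.H867.FT.Gen2

/-!
# A place away from two roots

Proof of `Pool.Agent.H867.FT.S_PLB`.
-/

set_option autoImplicit false

namespace Pool.Agent.H729.FT867

open Polynomial

/-- A polynomial of degree at most two over `V` which vanishes at `x` is zero. -/
theorem quad_zero {V L W K : Type} [CommRing V] [IsDomain V] [Field L] [Algebra V L]
    [IsFractionRing V L] [CommRing W] [Algebra V W] [Field K] [Algebra W K] [Algebra L K]
    [Algebra V K] [IsScalarTower V L K] [IsScalarTower V W K] (x : W)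
    (hind : ∀ l₀ l₁ l₂ : L, algebraMap L K l₀ + algebraMap L K l₁ * algebraMap W K x +
      algebraMap L K l₂ * algebraMap W K x ^ 2 = 0 → l₀ = 0 ∧ l₁ = 0 ∧ l₂ = 0)
    (r : V[X]) (hr : r.degree < (3 : ℕ)) (h0 : aeval x r = 0) : r = 0 := by
  have h1 : aeval x r = ∑ i ∈ Finset.range 3, r.coeff i • x ^ i := by
    by_cases hr0 : r = 0
    · rw [hr0, map_zero]
      simp
    · exact aeval_eq_sum_range' (by rwa [← natDegree_lt_iff_degree_lt hr0] at hr) x
  rw [h0, Finset.sum_range_succ, Finset.sum_range_succ, Finset.sum_range_succ,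
    Finset.sum_range_zero, zero_add, pow_zero, pow_one] at h1
  have h2 := congrArg (algebraMap W K) h1.symm
  rw [map_zero, map_add, map_add, Algebra.smul_def, Algebra.smul_def, Algebra.smul_def,
    map_mul, map_mul, map_mul, map_one, mul_one, map_pow,
    ← IsScalarTower.algebraMap_apply V W K, ← IsScalarTower.algebraMap_apply V W K,
    ← IsScalarTower.algebraMap_apply V W K, IsScalarTower.algebraMap_apply V L K,
    IsScalarTower.algebraMap_apply V L K, IsScalarTower.algebraMap_apply V L K] at h2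
  obtain ⟨k0, k1, k2⟩ := hind _ _ _ h2
  have hinj : Function.Injective (algebraMap V L) := IsFractionRing.injective V L
  have c0 : r.coeff 0 = 0 := hinj (by rw [k0, map_zero])
  have c1 : r.coeff 1 = 0 := hinj (by rw [k1, map_zero])
  have c2 : r.coeff 2 = 0 := hinj (by rw [k2, map_zero])
  ext n
  rw [coeff_zero]
  match n with
  | 0 => exact c0
  | 1 => exact c1
  | 2 => exact c2
  | n + 3 =>
    exact coeff_eq_zero_of_degree_lt (hr.trans_le (by exact_mod_cast (Nat.le_add_left 3 n)))

theorem plb : Pool.Agent.H867.FT.S_PLB := by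
  intro V L W K _ _ _ _ _ _ _ _ _ _ _ _ _ _ _ _ _ _ _ π a' z' e d ξ x _ hπ ha hz hzx he hd
    hrel hind
  obtain ⟨a1, ha1⟩ := ha.exists_right_inv
  obtain ⟨e1, he1⟩ := he
  obtain ⟨d1, hd1⟩ := hd
  have hA : algebraMap V W a' * algebraMap V W a1 = 1 := by rw [← map_mul, ha1, map_one]
  -- `u = a' x + z'` is not a unit
  have hnu : ¬ IsUnit (algebraMap V W a' * x + algebraMap V W z') := by
    intro hu
    obtain ⟨y, hy⟩ := hu.exists_left_inv
    have hyint : IsIntegral V y := IsIntegralClosure.isIntegral V K y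
    obtain ⟨p, hpm, hp⟩ := hyint
    let iy : Invertible y := ⟨algebraMap V W a' * x + algebraMap V W z', by rw [mul_comm]; exact hy,
      hy⟩
    have hp' : eval₂ (algebraMap V W) (algebraMap V W a' * x + algebraMap V W z')
        (reverse p) = 0 := (eval₂_reverse_eq_zero_iff (algebraMap V W) y p).2 hp
    have hc0 : (reverse p).coeff 0 = 1 := by rw [coeff_zero_reverse]; exact hpm
    -- the monic cubic
    have hq : degree (C (a1 * z' - ξ) * X ^ 2 + C (a1 * e - ξ * (a1 * z')) * X + C (a1 * d))
        < ((3 : ℕ) : WithBot ℕ) := degree_quadratic_lt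
    have hFm := monic_X_pow_add hq
    have hFd : (X ^ 3 + (C (a1 * z' - ξ) * X ^ 2 + C (a1 * e - ξ * (a1 * z')) * X
        + C (a1 * d)) : V[X]).degree = ((3 : ℕ) : WithBot ℕ) := by
      rw [degree_add_eq_left_of_degree_lt (by rw [degree_X_pow]; exact hq), degree_X_pow]
    have hFx : aeval x (X ^ 3 + (C (a1 * z' - ξ) * X ^ 2 + C (a1 * e - ξ * (a1 * z')) * X
        + C (a1 * d)) : V[X]) = 0 := by
      simp only [map_add, map_mul, map_pow, aeval_X, aeval_C, map_sub]
      linear_combination (algebraMap V W a1) * hrel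
        - x * (x - algebraMap V W ξ) * x * hA
    have hFe : eval (-(a1 * z')) (X ^ 3 + (C (a1 * z' - ξ) * X ^ 2
        + C (a1 * e - ξ * (a1 * z')) * X + C (a1 * d)) : V[X])
          = π * (a1 * d1 - a1 * e1 * (a1 * z')) := by
      simp only [eval_add, eval_mul, eval_C, eval_X, eval_pow]
      rw [he1, hd1]
      ring
    generalize (X ^ 3 + (C (a1 * z' - ξ) * X ^ 2 + C (a1 * e - ξ * (a1 * z')) * X
        + C (a1 * d)) : V[X]) = F at hFm hFd hFx hFe
    have hG : aeval x ((reverse p).comp (C a' * X + C z')) = 0 := by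
      rw [aeval_comp, map_add, map_mul, aeval_C, aeval_C, aeval_X]
      exact hp'
    have hGe : eval (-(a1 * z')) ((reverse p).comp (C a' * X + C z')) = 1 := by
      have e0 : a' * -(a1 * z') + z' = 0 := by linear_combination (-z') * ha1
      rw [eval_comp, eval_add, eval_mul, eval_C, eval_C, eval_X, e0, ← coeff_zero_eq_eval_zero,
        hc0]
    generalize (reverse p).comp (C a' * X + C z') = G at hG hGe
    have hdiv := modByMonic_add_div G F
    have hr0 : G %ₘ F = 0 := by
      refine quad_zero (L := L) (K := K) x hind _ ?_ ?_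
      · rw [← hFd]
        exact degree_modByMonic_lt G hFm
      · have h3 := congrArg (aeval x) hdiv
        rw [map_add, map_mul, hFx, zero_mul, add_zero, hG] at h3
        exact h3
    rw [hr0, zero_add] at hdiv
    have hev := congrArg (eval (-(a1 * z'))) hdiv
    rw [eval_mul, hGe, hFe, mul_assoc] at hev
    exact hπ.not_isUnit (IsUnit.of_mul_eq_one _ hev)
  obtain ⟨𝔔, hQ, huQ⟩ := exists_max_ideal_of_mem_nonunits (mem_nonunits_iff.2 hnu)
  have : Algebra.IsIntegral V W := IsIntegralClosure.isIntegral_algebra V K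
  have hm := Ideal.isMaximal_comap_of_isIntegral_of_isMaximal (R := V) 𝔔
  have hm2 := IsLocalRing.eq_maximalIdeal hm
  have hπQ : algebraMap V W π ∈ 𝔔 := by
    have h4 : π ∈ Ideal.comap (algebraMap V W) 𝔔 := by
      rw [hm2]
      exact (IsLocalRing.mem_maximalIdeal π).2 hπ.not_isUnit
    exact h4
  refine ⟨𝔔, hQ.isPrime, hπQ, ?_⟩
  intro hx
  rcases hQ.isPrime.mem_or_mem hx with h | h
  · have h5 : algebraMap V W z' ∈ 𝔔 := by
      have h6 := 𝔔.sub_mem huQ (𝔔.mul_mem_left (algebraMap V W a') h)
      rwa [add_sub_cancel_left] at h6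
    exact hQ.ne_top (Ideal.eq_top_of_isUnit_mem 𝔔 h5 (hz.map (algebraMap V W)))
  · have h5 : algebraMap V W (z' + ξ * a') ∈ 𝔔 := by
      have h6 := 𝔔.sub_mem huQ (𝔔.mul_mem_left (algebraMap V W a') h)
      have h7 : algebraMap V W a' * x + algebraMap V W z'
          - algebraMap V W a' * (x - algebraMap V W ξ) = algebraMap V W (z' + ξ * a') := by
        rw [map_add, map_mul]
        ring
      rwa [h7] at h6
    exact hQ.ne_top (Ideal.eq_top_of_isUnit_mem 𝔔 h5 (hzx.map (algebraMap V W)))

end Pool.Agent.H729.FT867
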