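import Mathlib

/-!
# Embedding central extensions into quotients of special linear groups
-/

set_option autoImplicit false

open scoped Classical

namespace Pool.Agent.H373.PD

/-- The elements of the centre of `S` whose order divides `δ`. -/
def tor (S : Type) [Group S] (δ : ℕ) : Subgroup S where
  carrier := {a | a ∈ Subgroup.center S ∧ a ^ δ = 1}
  one_mem' := ⟨Subgroup.one_mem _, one_pow _⟩
  mul_mem' {a b} ha hb := ⟨Subgroup.mul_mem _ ha.1 hb.1, by
    have h : Commute a b := (Subgroup.mem_center_iff.mp ha.1 b).symm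
    rw [h.mul_pow, ha.2, hb.2, one_mul]⟩
  inv_mem' {a} ha := ⟨Subgroup.inv_mem _ ha.1, by rw [inv_pow, ha.2, inv_one]⟩

instance tor_normal (S : Type) [Group S] (δ : ℕ) : (tor S δ).Normal where
  conj_mem a ha g := by
    have h : g * a * g⁻¹ = a := by
      rw [Subgroup.mem_center_iff.mp ha.1 g, mul_inv_cancel_right]
    rw [h]
    exact ha

/-- The quotient of `SL(N, r)` by the group of the scalar matrices whose order divides `δ`. -/
abbrev HS (N r δ : ℕ) : Type :=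
  Matrix.SpecialLinearGroup (Fin N) (ZMod r) ⧸ tor (Matrix.SpecialLinearGroup (Fin N) (ZMod r)) δ

/-- A prime `r` with `r - 1 = m δ`, `δ` coprime to `m`. -/
theorem exists_prime (m : ℕ) (hm : 0 < m) :
    ∃ r δ : ℕ, r.Prime ∧ 0 < δ ∧ m.Coprime δ ∧ r = 1 + m * δ := by
  have hc : (1 + m).Coprime (m ^ 2) := by
    apply Nat.Coprime.pow_right
    rw [Nat.coprime_add_self_left]
    exact Nat.coprime_one_left m
  obtain ⟨r, hr1, hr2, hr3⟩ := Nat.forall_exists_prime_gt_and_modEq (1 + m) (q := m ^ 2)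
    (pow_ne_zero 2 hm.ne') hc
  have h1 : m ^ 2 ∣ r - (1 + m) := (Nat.modEq_iff_dvd' hr1.le).1 hr3.symm
  obtain ⟨t, ht⟩ := h1
  refine ⟨r, 1 + m * t, hr2, by omega, ?_, ?_⟩
  · rw [Nat.coprime_add_mul_left_right]
    exact Nat.coprime_one_right m
  · have h2 : r = (1 + m) + m ^ 2 * t := by omega
    rw [h2]
    ring

/-- The character of a cyclic group. -/
theorem exists_lam (r : ℕ) [Fact r.Prime] (m δ : ℕ) (hm : 0 < m) (hδ : 0 < δ)
    (hr : r = 1 + m * δ) (Z : Type) [Group Z] [IsCyclic Z] (hZ : Nat.card Z = m) :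
    ∃ lam : Z →* (ZMod r)ˣ, Function.Injective lam ∧ ∀ c, c ^ m = 1 → ∃ z, lam z = c := by
  obtain ⟨z₀, hz₀⟩ := IsCyclic.exists_generator (α := Z)
  obtain ⟨f₀, hf₀⟩ := IsCyclic.exists_generator (α := (ZMod r)ˣ)
  have oz : orderOf z₀ = m := by rw [orderOf_eq_card_of_forall_mem_zpowers hz₀, hZ]
  have of : orderOf f₀ = m * δ := by
    rw [orderOf_eq_card_of_forall_mem_zpowers hf₀, Nat.card_eq_fintype_card,
      ZMod.card_units_eq_totient, Nat.totient_prime Fact.out, hr]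
    omega
  have of1 : orderOf (f₀ ^ δ) = m := by
    rw [orderOf_pow_of_dvd hδ.ne' (by rw [of]; exact dvd_mul_left _ _), of]
    exact Nat.mul_div_cancel m hδ
  have hd : orderOf (f₀ ^ δ) ∣ orderOf z₀ := by rw [of1, oz]
  refine ⟨monoidHomOfForallMemZpowers hz₀ hd, ?_, ?_⟩
  · rw [injective_iff_map_eq_one]
    intro z hz
    obtain ⟨i, rfl⟩ := Subgroup.mem_zpowers_iff.1 (hz₀ z)
    rw [map_zpow, monoidHomOfForallMemZpowers_apply_gen, ← orderOf_dvd_iff_zpow_eq_one, of1] at hz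
    rw [← orderOf_dvd_iff_zpow_eq_one, oz]
    exact hz
  · intro c hc
    obtain ⟨i, rfl⟩ := Subgroup.mem_zpowers_iff.1 (hf₀ c)
    rw [← zpow_natCast, ← zpow_mul, ← orderOf_dvd_iff_zpow_eq_one, of] at hc
    have h1 : (δ : ℤ) ∣ i := by
      have h2 : (m : ℤ) * δ ∣ m * i := by
        have h3 : ((m * δ : ℕ) : ℤ) = (m : ℤ) * δ := by push_cast; ring
        rw [← h3, mul_comm (m : ℤ) i]
        exact hc
      exact (mul_dvd_mul_iff_left (by exact_mod_cast hm.ne')).1 h2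
    obtain ⟨j, hj⟩ := h1
    refine ⟨z₀ ^ j, ?_⟩
    rw [map_zpow, monoidHomOfForallMemZpowers_apply_gen, hj, zpow_mul, zpow_natCast]

/-- An element whose commutators are central is central if the group is perfect. -/
theorem perf {S : Type} [Group S] (hS : commutator S = ⊤) (A : S)
    (hA : ∀ B : S, A * B * A⁻¹ * B⁻¹ ∈ Subgroup.center S) : A ∈ Subgroup.center S := by
  let f : S →* Subgroup.center S :=
    MonoidHom.mk' (fun B => ⟨A * B * A⁻¹ * B⁻¹, hA B⟩) (by
      intro B B'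
      apply Subtype.ext
      show A * (B * B') * A⁻¹ * (B * B')⁻¹ = (A * B * A⁻¹ * B⁻¹) * (A * B' * A⁻¹ * B'⁻¹)
      have h1 := Subgroup.mem_center_iff.1 (hA B') (A * B * A⁻¹)
      calc A * (B * B') * A⁻¹ * (B * B')⁻¹
          = (A * B * A⁻¹) * (A * B' * A⁻¹ * B'⁻¹) * B⁻¹ := by group
        _ = (A * B' * A⁻¹ * B'⁻¹) * (A * B * A⁻¹) * B⁻¹ := by rw [h1]
        _ = (A * B' * A⁻¹ * B'⁻¹) * (A * B * A⁻¹ * B⁻¹) := by group
        _ = (A * B * A⁻¹ * B⁻¹) * (A * B' * A⁻¹ * B'⁻¹) :=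
          (Subgroup.mem_center_iff.1 (hA B') _).symm)
  have hker : f.ker = ⊤ := by
    rw [eq_top_iff, ← hS, commutator_def, Subgroup.commutator_le]
    intro a _ b _
    rw [MonoidHom.mem_ker, map_commutatorElement, commutatorElement_eq_one_iff_mul_comm]
    apply Subtype.ext
    exact Subgroup.mem_center_iff.1 (f b).2 (f a : S)
  rw [Subgroup.mem_center_iff]
  intro B
  have h2 : B ∈ f.ker := by rw [hker]; trivial
  have h3 : A * B * A⁻¹ * B⁻¹ = 1 := congrArg Subtype.val (MonoidHom.mem_ker.1 h2)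
  calc B * A = 1 * (B * A) := (one_mul _).symm
    _ = (A * B * A⁻¹ * B⁻¹) * (B * A) := by rw [h3]
    _ = A * B := by group

theorem exists_emb
    (h1 : ∀ (n r : ℕ) [Fact r.Prime], 3 ≤ n →
      commutator (Matrix.SpecialLinearGroup (Fin n) (ZMod r)) = ⊤)
    (h2 : ∀ (G : Type) [Group G] [Finite G] (Z : Subgroup G)
      (_ : Z ≤ Subgroup.center G) (F : Type) [Field F] (lam : Z →* Fˣ) (k : ℕ) (_ : 0 < k)
      (_ : ∀ a : Fˣ, a ^ k = 1),
      ∃ ρ : G →* Matrix.SpecialLinearGroup (Fin (Z.index * k)) F,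
        (∀ z : Z, ((ρ (z : G) : Matrix.SpecialLinearGroup (Fin (Z.index * k)) F) :
          Matrix (Fin (Z.index * k)) (Fin (Z.index * k)) F) =
            Matrix.scalar (Fin (Z.index * k)) ((lam z : Fˣ) : F)) ∧
        ∀ g : G, (∃ c : F, ((ρ g : Matrix.SpecialLinearGroup (Fin (Z.index * k)) F) :
          Matrix (Fin (Z.index * k)) (Fin (Z.index * k)) F) =
            Matrix.scalar (Fin (Z.index * k)) c) → g ∈ Z)
    (G : Type) [Group G] [Finite G] (Z : Subgroup G) (hZ : Z ≤ Subgroup.center G) [IsCyclic Z] :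
    ∃ N r δ : ℕ, 3 ≤ N ∧ r.Prime ∧ 0 < δ ∧ ∃ ι : G →* HS N r δ, Function.Injective ι ∧
      Z.map ι = Subgroup.center (HS N r δ) := by
  obtain ⟨m, hm⟩ : ∃ m : ℕ, m = Nat.card Z := ⟨_, rfl⟩
  have hm0 : 0 < m := by rw [hm]; exact Nat.card_pos
  obtain ⟨r, δ, hr, hδ, hcop, hrm⟩ := exists_prime m hm0
  have hfr : Fact r.Prime := ⟨hr⟩
  obtain ⟨lam, hinj, hsurj⟩ := exists_lam r m δ hm0 hδ hrm Z hm.symm
  have hpow : ∀ a : (ZMod r)ˣ, a ^ (m * δ) = 1 := by
    intro a
    have h3 := ZMod.units_pow_card_sub_one_eq_one r a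
    rwa [show r - 1 = m * δ by omega] at h3
  have hk0 : 0 < 3 * (m * δ) := by positivity
  obtain ⟨ρ, hρ1, hρ2⟩ := h2 G Z hZ (ZMod r) lam (3 * (m * δ)) hk0 (fun a => by
    rw [mul_comm, pow_mul, hpow, one_pow])
  have hidx : Z.index ≠ 0 := Subgroup.index_ne_zero_of_finite
  have hmδ : 1 ≤ m * δ := Nat.succ_le_of_lt (Nat.mul_pos hm0 hδ)
  have hN : 3 ≤ Z.index * (3 * (m * δ)) := by
    have h3 : 1 * 3 ≤ Z.index * (3 * (m * δ)) :=
      Nat.mul_le_mul (Nat.one_le_iff_ne_zero.2 hidx) (by omega)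
    omega
  refine ⟨Z.index * (3 * (m * δ)), r, δ, hN, hr, hδ, ?_⟩
  have hperf := h1 (Z.index * (3 * (m * δ))) r hN
  revert ρ hρ1 hρ2 hN hperf
  generalize Z.index * (3 * (m * δ)) = N
  intro ρ hρ1 hρ2 hN hperf
  have i0 : Fin N := ⟨0, by omega⟩
  -- scalar matrices are central
  have hcen : ∀ (T : Matrix.SpecialLinearGroup (Fin N) (ZMod r)) (c : ZMod r),
      (T : Matrix (Fin N) (Fin N) (ZMod r)) = Matrix.scalar (Fin N) c →
      T ∈ Subgroup.center (Matrix.SpecialLinearGroup (Fin N) (ZMod r)) := by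
    intro T c hT
    rw [Subgroup.mem_center_iff]
    intro B
    apply Subtype.ext
    show (B : Matrix (Fin N) (Fin N) (ZMod r)) * (T : Matrix (Fin N) (Fin N) (ZMod r)) =
      (T : Matrix (Fin N) (Fin N) (ZMod r)) * (B : Matrix (Fin N) (Fin N) (ZMod r))
    rw [hT]
    exact ((Matrix.scalar_commute c (fun _ => mul_comm _ _) _).eq).symm
  have hscal : ∀ c d : ZMod r, Matrix.scalar (Fin N) c = Matrix.scalar (Fin N) d → c = d := by
    intro c d h
    have h3 := congrFun (congrFun h i0) i0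
    simpa using h3
  refine ⟨(QuotientGroup.mk' _).comp ρ, ?_, ?_⟩
  · -- injectivity
    rw [injective_iff_map_eq_one]
    intro g hg
    have h3 : ρ g ∈ tor (Matrix.SpecialLinearGroup (Fin N) (ZMod r)) δ :=
      (QuotientGroup.eq_one_iff (ρ g)).1 hg
    obtain ⟨c, -, hc⟩ := Matrix.SpecialLinearGroup.mem_center_iff.1 h3.1
    have hgZ : g ∈ Z := hρ2 g ⟨c, hc.symm⟩
    have h4 := hρ1 ⟨g, hgZ⟩
    have h5 : Matrix.scalar (Fin N) (((lam ⟨g, hgZ⟩) ^ δ : (ZMod r)ˣ) : ZMod r) =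
        Matrix.scalar (Fin N) (1 : ZMod r) := by
      rw [Units.val_pow_eq_pow_val, map_pow, ← h4, map_one]
      have h6 := congrArg (fun T : Matrix.SpecialLinearGroup (Fin N) (ZMod r) =>
        (T : Matrix (Fin N) (Fin N) (ZMod r))) h3.2
      simpa using h6
    have h6 : (lam ⟨g, hgZ⟩) ^ δ = 1 := by
      apply Units.ext
      rw [Units.val_one]
      exact hscal _ _ h5
    have h7 : (lam ⟨g, hgZ⟩) ^ m = 1 := by
      rw [← map_pow, hm, pow_card_eq_one', map_one]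
    have h8 : orderOf (lam ⟨g, hgZ⟩) ∣ 1 := by
      rw [← hcop.gcd_eq_one]
      exact Nat.dvd_gcd (orderOf_dvd_of_pow_eq_one h7) (orderOf_dvd_of_pow_eq_one h6)
    have h9 : lam ⟨g, hgZ⟩ = 1 := orderOf_eq_one_iff.1 (Nat.dvd_one.1 h8)
    have h10 : (⟨g, hgZ⟩ : Z) = 1 := (injective_iff_map_eq_one lam).1 hinj _ h9
    exact congrArg Subtype.val h10
  · apply le_antisymm
    · rintro _ ⟨z, hz, rfl⟩
      rw [Subgroup.mem_center_iff]
      intro h
      obtain ⟨B, rfl⟩ := QuotientGroup.mk'_surjective _ h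
      show QuotientGroup.mk' _ B * QuotientGroup.mk' _ (ρ z) =
        QuotientGroup.mk' _ (ρ z) * QuotientGroup.mk' _ B
      rw [← map_mul, ← map_mul, Subgroup.mem_center_iff.1 (hcen (ρ z) _ (hρ1 ⟨z, hz⟩)) B]
    · intro h hh
      obtain ⟨A, rfl⟩ := QuotientGroup.mk'_surjective _ h
      have hA : A ∈ Subgroup.center (Matrix.SpecialLinearGroup (Fin N) (ZMod r)) := by
        apply perf hperf
        intro B
        have h3 := Subgroup.mem_center_iff.1 hh (QuotientGroup.mk' _ B)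
        have h4 : QuotientGroup.mk' (tor (Matrix.SpecialLinearGroup (Fin N) (ZMod r)) δ)
            (A * B * A⁻¹ * B⁻¹) = 1 := by
          rw [map_mul, map_mul, map_mul, map_inv, map_inv, ← h3]
          group
        exact ((QuotientGroup.eq_one_iff _).1 h4).1
      obtain ⟨c, hcN, hc⟩ := Matrix.SpecialLinearGroup.mem_center_iff.1 hA
      have hc0 : c ≠ 0 := by
        intro h0
        rw [h0, Fintype.card_fin, zero_pow (by omega)] at hcN
        exact zero_ne_one hcN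
      obtain ⟨cu, hcu⟩ : ∃ cu : (ZMod r)ˣ, (cu : ZMod r) = c := ⟨Units.mk0 c hc0, rfl⟩
      -- Bezout
      have hbez : (m : ℤ) * Nat.gcdA m δ + δ * Nat.gcdB m δ = 1 := by
        have h3 := Nat.gcd_eq_gcd_ab m δ
        rw [hcop.gcd_eq_one] at h3
        exact_mod_cast h3.symm
      have hsplit : cu ^ ((δ : ℤ) * Nat.gcdB m δ) * cu ^ ((m : ℤ) * Nat.gcdA m δ) = cu := by
        rw [← zpow_add, add_comm, hbez, zpow_one]
      have hc1 : (cu ^ ((δ : ℤ) * Nat.gcdB m δ)) ^ m = 1 := by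
        rw [← zpow_natCast, ← zpow_mul, show (δ : ℤ) * Nat.gcdB m δ * (m : ℤ) =
          ((m * δ : ℕ) : ℤ) * Nat.gcdB m δ by push_cast; ring, zpow_mul, zpow_natCast, hpow,
          one_zpow]
      have hc2 : (cu ^ ((m : ℤ) * Nat.gcdA m δ)) ^ δ = 1 := by
        rw [← zpow_natCast, ← zpow_mul, show (m : ℤ) * Nat.gcdA m δ * (δ : ℤ) =
          ((m * δ : ℕ) : ℤ) * Nat.gcdA m δ by push_cast; ring, zpow_mul, zpow_natCast, hpow,
          one_zpow]
      obtain ⟨z, hz⟩ := hsurj _ hc1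
      generalize cu ^ ((m : ℤ) * Nat.gcdA m δ) = c2 at hsplit hc2
      rw [← hz] at hsplit
      refine ⟨z, z.2, ?_⟩
      show QuotientGroup.mk' _ (ρ z) = QuotientGroup.mk' _ A
      have hTm : (((ρ z)⁻¹ * A : Matrix.SpecialLinearGroup (Fin N) (ZMod r)) :
          Matrix (Fin N) (Fin N) (ZMod r)) = Matrix.scalar (Fin N) (c2 : ZMod r) := by
        have h3 : (ρ z : Matrix (Fin N) (Fin N) (ZMod r)) *
            (((ρ z)⁻¹ * A : Matrix.SpecialLinearGroup (Fin N) (ZMod r)) :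
              Matrix (Fin N) (Fin N) (ZMod r)) = (A : Matrix (Fin N) (Fin N) (ZMod r)) := by
          rw [← Matrix.SpecialLinearGroup.coe_mul, mul_inv_cancel_left]
        rw [hρ1 z, ← hc, ← hcu, ← hsplit, Units.val_mul, map_mul] at h3
        have h4 : Matrix.scalar (Fin N) (((lam z)⁻¹ : (ZMod r)ˣ) : ZMod r) *
            Matrix.scalar (Fin N) ((lam z : (ZMod r)ˣ) : ZMod r) = 1 := by
          rw [← map_mul, Units.inv_mul, map_one]
        have h5 := congrArg (fun T => Matrix.scalar (Fin N) (((lam z)⁻¹ : (ZMod r)ˣ) : ZMod r) * T) h3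
        simp only [← mul_assoc] at h5
        rw [h4, one_mul, one_mul] at h5
        exact h5
      rw [QuotientGroup.mk'_apply, QuotientGroup.mk'_apply, QuotientGroup.eq]
      refine ⟨hcen _ _ hTm, ?_⟩
      apply Subtype.ext
      show ((((ρ z)⁻¹ * A) ^ δ : Matrix.SpecialLinearGroup (Fin N) (ZMod r)) :
        Matrix (Fin N) (Fin N) (ZMod r)) = ((1 : Matrix.SpecialLinearGroup (Fin N) (ZMod r)) :
        Matrix (Fin N) (Fin N) (ZMod r))
      rw [Matrix.SpecialLinearGroup.coe_pow, hTm, ← map_pow, ← Units.val_pow_eq_pow_val, hc2,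
        Units.val_one, map_one, Matrix.SpecialLinearGroup.coe_one]

end Pool.Agent.H373.PD
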