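import Mathlib
import Pool.Graph.R_seed8.H69R3.Ctl

set_option autoImplicit false

open Set Topology Filter

universe u v

namespace Pool.Agent.H729

open Pool.Agent.Helper126 (delta_system uncountable_fiber)
open Pool.Agent.H69R3 (Cp Ctl local_cont interp)

/-- amalgamation of finite conditions with values in a countable set -/
theorem amalgN {J T : Type*} [Countable T] [Inhabited T] (S : Set J) (hS : ¬ S.Countable)
    (G : J → Finset J) (s : J → J → T) : ∃ S' ⊆ S, ¬ S'.Countable ∧ ∃ t : J → T,
      ∀ β ∈ S', ∀ j ∈ G β, j ≠ β → (j ∉ S' ∧ t j = s β j) := by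
  classical
  obtain ⟨S1, R, h1, h2, h3, h4⟩ := delta_system (fun β => insert β (G β)) S hS
  have h5 : ¬ (S1 \ (R : Set J)).Countable := by
    intro h
    apply h2
    refine ((h.union R.countable_toSet)).mono ?_
    intro x hx
    by_cases hxR : x ∈ (R : Set J)
    · exact Or.inr hxR
    · exact Or.inl ⟨hx, hxR⟩
  obtain ⟨r, hr⟩ := uncountable_fiber (fun β => fun j : R => s β j) (S1 \ (R : Set J)) h5
  set S3 := {β ∈ S1 \ (R : Set J) | (fun j : R => s β j) = r} with hS3
  refine ⟨S3, fun β hβ => h1 hβ.1.1, hr, fun j =>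
    if hj : j ∈ R then r ⟨j, hj⟩ else
      if h : ∃ β ∈ S3, j ∈ G β then s h.choose j else default, ?_⟩
  intro β hβ j hj hjβ
  constructor
  · intro hjS
    have h6 := h4 β hβ.1.1 j hjS.1.1 (Ne.symm hjβ) j (Finset.mem_insert_of_mem hj)
      (Finset.mem_insert_self _ _)
    exact hjS.1.2 h6
  · by_cases hjR : j ∈ R
    · simp only [hjR, dif_pos]
      have := congrFun hβ.2 ⟨j, hjR⟩
      exact this.symm
    · have hex : ∃ β ∈ S3, j ∈ G β := ⟨β, hβ, hj⟩
      simp only [hjR, hex, dif_pos, dif_neg, not_false_eq_true]
      obtain ⟨h7, h8⟩ := hex.choose_spec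
      have h9 : hex.choose = β := by
        by_contra hne
        exact hjR (h4 _ h7.1.1 β hβ.1.1 hne j (Finset.mem_insert_of_mem h8)
          (Finset.mem_insert_of_mem hj))
      rw [h9]

/-- cylinder neighbourhoods -/
theorem exists_cylI {J Y : Type*} [TopologicalSpace Y] {U : Set (J → Y)} (hU : IsOpen U)
    {d : J → Y} (hd : d ∈ U) :
    ∃ G : Finset J, ∀ d' : J → Y, (∀ j ∈ G, d' j = d j) → d' ∈ U := by
  obtain ⟨G, u, hu, hs⟩ := isOpen_pi_iff.1 hU d hd
  refine ⟨G, fun d' hd' => hs ?_⟩
  intro j hj
  rw [hd' j hj]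
  exact (hu j hj).2

/-- a dense sequence in the interval -/
noncomputable def pt : ℕ → unitInterval := TopologicalSpace.denseSeq unitInterval

theorem exists_pt {J : Type*} {U : Set (J → unitInterval)} (hU : IsOpen U) (hne : U.Nonempty) :
    ∃ n : J → ℕ, (fun j => pt (n j)) ∈ U := by
  have h1 : Dense (Set.pi univ fun _ : J => range pt) :=
    dense_pi univ fun _ _ => TopologicalSpace.denseRange_denseSeq _
  obtain ⟨d, hdU, hd⟩ := h1.inter_open_nonempty U hU hne
  have h2 : ∀ j, ∃ n, pt n = d j := fun j => hd j (mem_univ j)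
  choose n hn using h2
  refine ⟨n, ?_⟩
  have : (fun j => pt (n j)) = d := funext hn
  rwa [this]

/-- segments in the interval -/
def lin (a b w : unitInterval) : unitInterval :=
  ⟨(1 - (w : ℝ)) * a + w * b, by
    constructor
    · have h1 := sub_nonneg.2 w.2.2
      have h2 := w.2.1
      have h3 := a.2.1
      have h4 := b.2.1
      positivity
    · have h1 := sub_nonneg.2 w.2.2
      have h2 := w.2.1
      have h3 := a.2.2
      have h4 := b.2.2
      nlinarith⟩

theorem lin_zero (a b : unitInterval) : lin a b 0 = a := by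
  apply Subtype.ext
  simp [lin]

theorem lin_one (a b : unitInterval) : lin a b 1 = b := by
  apply Subtype.ext
  simp [lin]

theorem continuous_lin (a b : unitInterval) : Continuous (lin a b) := by
  unfold lin
  fun_prop

/-- step functions -/
noncomputable def step (p : ℚ × ℚ) (w : unitInterval) : unitInterval :=
  Set.projIcc (0 : ℝ) 1 zero_le_one (((w : ℝ) - p.1) / (p.2 - p.1))

theorem continuous_step (p : ℚ × ℚ) : Continuous (step p) := by
  unfold step
  apply continuous_projIcc.comp
  fun_prop

theorem exists_step {w w' : unitInterval} (h : w < w') : ∃ p, step p w = 0 ∧ step p w' = 1 := by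
  have h' : (w : ℝ) < w' := h
  obtain ⟨p, hp1, hp2⟩ := exists_rat_btwn h'
  obtain ⟨q, hq1, hq2⟩ := exists_rat_btwn hp2
  refine ⟨(p, q), ?_, ?_⟩
  · unfold step
    apply Set.projIcc_of_le_left
    apply div_nonpos_of_nonpos_of_nonneg
    · simp only
      linarith
    · simp only
      linarith
  · unfold step
    apply Set.projIcc_of_right_le
    rw [one_le_div (by simp only; linarith)]
    simp only
    linarith

/-- A continuous map from a Tychonoff cube to a space which contains no injective continuous image of
an uncountable Tychonoff cube depends on countably many coordinates. -/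
theorem countable_supportI {X : Type u} [TopologicalSpace X] [T2Space X]
    (hN : ∀ (S : Type v) [Uncountable S] (g : (S → unitInterval) → X), Continuous g →
      ¬ Function.Injective g) {J : Type v} (g : (J → unitInterval) → X) (hg : Continuous g) :
    {β : J | ∃ d d' : J → unitInterval, (∀ j, j ≠ β → d j = d' j) ∧ g d ≠ g d'}.Countable := by
  classical
  by_contra hS
  have key : ∀ β ∈ {β : J | ∃ d d' : J → unitInterval, (∀ j, j ≠ β → d j = d' j) ∧ g d ≠ g d'},
      ∃ (G : Finset J) (n : J → ℕ) (a b : unitInterval),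
      ∀ d d' : J → unitInterval, (∀ j ∈ G, j ≠ β → d j = pt (n j)) →
        (∀ j ∈ G, j ≠ β → d' j = pt (n j)) → d β = a → d' β = b → g d ≠ g d' := by
    rintro β ⟨d0, d1, hd01, hne⟩
    have hopen : IsOpen {d : J → unitInterval |
        g (Function.update d β (d0 β)) ≠ g (Function.update d β (d1 β))} := by
      apply isOpen_ne_fun
      · exact hg.comp (continuous_id.update β continuous_const)
      · exact hg.comp (continuous_id.update β continuous_const)
    have hmem : d0 ∈ {d : J → unitInterval |
        g (Function.update d β (d0 β)) ≠ g (Function.update d β (d1 β))} := by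
      have e1 : Function.update d0 β (d1 β) = d1 := by
        funext j
        by_cases hj : j = β
        · subst hj
          rw [Function.update_self]
        · rw [Function.update_of_ne hj, hd01 j hj]
      show g (Function.update d0 β (d0 β)) ≠ g (Function.update d0 β (d1 β))
      rw [e1, Function.update_eq_self]
      exact hne
    obtain ⟨n, hn⟩ := exists_pt hopen ⟨d0, hmem⟩
    obtain ⟨U, W, hU, hW, hxU, hxW, hUW⟩ := t2_separation (show
      g (Function.update (fun j => pt (n j)) β (d0 β)) ≠
        g (Function.update (fun j => pt (n j)) β (d1 β)) from hn)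
    obtain ⟨G1, hG1⟩ := exists_cylI (hU.preimage hg)
      (show Function.update (fun j => pt (n j)) β (d0 β) ∈ g ⁻¹' U from hxU)
    obtain ⟨G2, hG2⟩ := exists_cylI (hW.preimage hg)
      (show Function.update (fun j => pt (n j)) β (d1 β) ∈ g ⁻¹' W from hxW)
    refine ⟨G1 ∪ G2, n, d0 β, d1 β, fun d d' hd hd' hdβ hdβ' heq => ?_⟩
    have e1 : g d ∈ U := by
      apply hG1
      intro j hj
      by_cases hjβ : j = β
      · subst hjβ
        rw [Function.update_self, hdβ]
      · rw [Function.update_of_ne hjβ]
        exact hd j (Finset.mem_union_left _ hj) hjβ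
    have e2 : g d' ∈ W := by
      apply hG2
      intro j hj
      by_cases hjβ : j = β
      · subst hjβ
        rw [Function.update_self, hdβ']
      · rw [Function.update_of_ne hjβ]
        exact hd' j (Finset.mem_union_right _ hj) hjβ
    exact disjoint_left.1 hUW e1 (heq ▸ e2)
  choose! G n a b hG using key
  obtain ⟨S', hS'S, hS', t, ht⟩ := amalgN _ hS G n
  have hunc : Uncountable S' := by
    rw [← not_countable_iff]
    exact fun h => hS' (Set.countable_coe_iff.1 h)
  obtain ⟨ρ⟩ : Nonempty (S' × (ℚ × ℚ) ≃ S') := by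
    apply Cardinal.eq.1
    have h1 : Cardinal.aleph0 ≤ Cardinal.mk S' := Cardinal.aleph0_le_mk_iff.2 inferInstance
    have h2 : Cardinal.mk (ℚ × ℚ) = Cardinal.aleph0 := Cardinal.mk_eq_aleph0 _
    rw [Cardinal.mk_prod, h2]
    simp only [Cardinal.lift_id', Cardinal.lift_aleph0, Cardinal.lift_uzero]
    exact Cardinal.mul_aleph0_eq h1
  set ε : (S' → unitInterval) → (J → unitInterval) := fun e j =>
    if hj : j ∈ S' then lin (a j) (b j) (step (ρ.symm ⟨j, hj⟩).2 (e (ρ.symm ⟨j, hj⟩).1))
    else pt (t j) with hε
  have hεc : Continuous ε := by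
    apply continuous_pi
    intro j
    by_cases hj : j ∈ S'
    · simp only [hε, hj, dif_pos]
      exact (continuous_lin _ _).comp ((continuous_step _).comp (continuous_apply _))
    · simp only [hε, hj, dif_neg, not_false_eq_true]
      exact continuous_const
  have hεout : ∀ e, ∀ j, j ∉ S' → ε e j = pt (t j) := by
    intro e j hj
    simp only [hε, hj, dif_neg, not_false_eq_true]
  have hεin : ∀ e (η : S') (p : ℚ × ℚ), ε e (ρ (η, p)) =
      lin (a (ρ (η, p))) (b (ρ (η, p))) (step p (e η)) := by
    intro e η p
    simp only [hε, Subtype.coe_prop, dif_pos, Subtype.coe_eta, Equiv.symm_apply_apply]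
  -- separation
  have hsep : ∀ e e' : S' → unitInterval, ∀ η, e η < e' η → g (ε e) ≠ g (ε e') := by
    intro e e' η hlt
    obtain ⟨p, hp0, hp1⟩ := exists_step hlt
    apply hG (ρ (η, p)) (hS'S (ρ (η, p)).2)
    · intro j hj hjβ
      obtain ⟨h4, h5⟩ := ht _ (ρ (η, p)).2 j hj hjβ
      rw [hεout _ _ h4, h5]
    · intro j hj hjβ
      obtain ⟨h4, h5⟩ := ht _ (ρ (η, p)).2 j hj hjβ
      rw [hεout _ _ h4, h5]
    · rw [hεin, hp0, lin_zero]
    · rw [hεin, hp1, lin_one]
  refine hN S' (fun e => g (ε e)) (hg.comp hεc) ?_
  intro e e' hee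
  funext η
  rcases lt_trichotomy (e η) (e' η) with h | h | h
  · exact absurd hee (hsep e e' η h)
  · exact h
  · exact absurd hee.symm (hsep e' e η h)

theorem continuous_piecewise_cubeI {J : Type*} [DecidableEq J] (G : Finset J)
    (s : J → unitInterval) : Continuous fun d : J → unitInterval => G.piecewise s d := by
  apply continuous_pi
  intro j
  by_cases hj : j ∈ G
  · simp only [Finset.piecewise_eq_of_mem _ _ _ hj]
    exact continuous_const
  · simp only [Finset.piecewise_eq_of_notMem _ _ _ hj]
    exact continuous_apply j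

/-- The main combinatorial theorem: if the compact space `X` contains no injective continuous image
of an uncountable Tychonoff cube, then an uncountable Tychonoff cube cannot be mapped into
`C_p(C_p(X))` by a map which is independent on functions `h β`. -/
theorem coreI {X : Type u} [TopologicalSpace X] [CompactSpace X] [T2Space X]
    (hN : ∀ (S : Type v) [Uncountable S] (g : (S → unitInterval) → X), Continuous g →
      ¬ Function.Injective g)
    {J : Type v} [Uncountable J] (Φ : (J → unitInterval) → Cp X → ℝ)
    (h1 : ∀ f, Continuous fun d => Φ d f)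
    (h2 : ∀ d, Continuous (Φ d)) (h : J → Cp X)
    (hf : ∀ d β, d β = 0 → Φ d (h β) ≤ 0) (ht : ∀ d β, d β = 1 → 1 ≤ Φ d (h β)) : False := by
  classical
  rcases isEmpty_or_nonempty X with hX | hX
  · have hinf : Infinite J := inferInstance
    obtain ⟨β⟩ : Nonempty J := inferInstance
    obtain ⟨γ, hγ⟩ := exists_ne β
    have e1 := hf (Function.update (fun _ => 0) γ 1) β (by rw [Function.update_of_ne hγ.symm])
    have e2 := ht (Function.update (fun _ => 0) γ 1) γ (by rw [Function.update_self])
    have e3 : h β = h γ := Subtype.ext (funext fun x => (hX.false x).elim)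
    rw [e3] at e1
    linarith
  have hcu : ∀ (β : J) (x : unitInterval),
      Continuous fun d : J → unitInterval => Function.update d β x := fun β x =>
    continuous_id.update β continuous_const
  have key : ∀ β : J, ∃ (n : ℕ) (G : Finset J) (s : J → ℕ) (E : (J → unitInterval) → Finset X)
      (c : Set J), c.Countable ∧ (∀ γ ∉ c, ∀ d x, E (Function.update d γ x) = E d) ∧
      ∀ d : J → unitInterval, (∀ j ∈ G, j ≠ β → d j = pt (s j)) → ∀ f : Cp X,
        (∀ x ∈ E d, |f.1 x - (h β).1 x| < 1 / (n + 1 : ℝ)) →
        |Φ (Function.update d β 0) f - Φ (Function.update d β 0) (h β)| ≤ 1 / 3 ∧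
        |Φ (Function.update d β 1) f - Φ (Function.update d β 1) (h β)| ≤ 1 / 3 := by
    intro β
    obtain ⟨V, hVo, hVn, δ, hδ, k, F, hFc, hF⟩ := local_cont (D := J → unitInterval) (X := X)
      (Θ := fun d f => max |Φ (Function.update d β 0) f - Φ (Function.update d β 0) (h β)|
        |Φ (Function.update d β 1) f - Φ (Function.update d β 1) (h β)|)
      (fun f => ((((h1 f).comp (hcu β 0)).sub ((h1 (h β)).comp (hcu β 0))).abs).max
        ((((h1 f).comp (hcu β 1)).sub ((h1 (h β)).comp (hcu β 1))).abs))
      (fun d => (((h2 _).sub continuous_const).abs).max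
        (((h2 _).sub continuous_const).abs)) (h β) (by norm_num : (0 : ℝ) < 1 / 3)
    obtain ⟨s, hs⟩ := exists_pt hVo hVn
    obtain ⟨G, hG⟩ := exists_cylI hVo hs
    obtain ⟨n, hn⟩ := exists_nat_one_div_lt hδ
    have hr : Continuous fun d : J → unitInterval => G.piecewise (fun j => pt (s j)) d :=
      continuous_piecewise_cubeI G _
    have hrV : ∀ d : J → unitInterval, G.piecewise (fun j => pt (s j)) d ∈ V := fun d =>
      hG _ fun j hj => Finset.piecewise_eq_of_mem _ _ _ hj
    have hgc : Continuous fun d : J → unitInterval => F (G.piecewise (fun j => pt (s j)) d) := by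
      rw [← continuousOn_univ]
      exact hFc.comp hr.continuousOn fun d _ => hrV d
    refine ⟨n, G, s, fun d => Finset.univ.image (F (G.piecewise (fun j => pt (s j)) d)),
      ⋃ a : Fin k, {γ : J | ∃ d d' : J → unitInterval, (∀ j, j ≠ γ → d j = d' j) ∧
        F (G.piecewise (fun j => pt (s j)) d) a ≠ F (G.piecewise (fun j => pt (s j)) d') a},
      ?_, ?_, ?_⟩
    · exact countable_iUnion fun a => countable_supportI hN
        (fun d => F (G.piecewise (fun j => pt (s j)) d) a) ((continuous_apply a).comp hgc)
    · intro γ hγ d x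
      have : F (G.piecewise (fun j => pt (s j)) (Function.update d γ x)) =
          F (G.piecewise (fun j => pt (s j)) d) := by
        funext a
        by_contra hne
        refine hγ (mem_iUnion.2 ⟨a, _, _, ?_, hne⟩)
        intro j hj
        rw [Function.update_of_ne hj]
      simp only [this]
    · intro d hd f hfd
      have e1 := hF _ (hrV d) f (by
        intro a
        exact (hfd _ (Finset.mem_image_of_mem _ (Finset.mem_univ a))).trans hn)
      simp only [sub_self, abs_zero, max_self, sub_zero] at e1
      rw [abs_of_nonneg (le_max_of_le_left (abs_nonneg _))] at e1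
      have e2 : ∀ x, Function.update (G.piecewise (fun j => pt (s j)) d) β x =
          Function.update d β x := by
        intro x
        funext j
        by_cases hjβ : j = β
        · subst hjβ
          rw [Function.update_self, Function.update_self]
        · rw [Function.update_of_ne hjβ, Function.update_of_ne hjβ]
          by_cases hj : j ∈ G
          · rw [Finset.piecewise_eq_of_mem _ _ _ hj, hd j hj hjβ]
          · rw [Finset.piecewise_eq_of_notMem _ _ _ hj]
      rw [e2, e2] at e1
      exact max_le_iff.1 e1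
  choose n G s E c hc hE hctl using key
  have hU : ¬ (univ : Set J).Countable := Set.not_countable_univ_iff.2 inferInstance
  obtain ⟨m, hm⟩ := uncountable_fiber n univ hU
  obtain ⟨S, hSm, hS, t, hSt⟩ := amalgN _ hm G s
  have hnS : ∀ β ∈ S, n β = m := fun β hβ => (hSm hβ).2
  have hδ : (0 : ℝ) < 1 / (m + 1 : ℝ) := by positivity
  set d0 : J → unitInterval := fun j => if j ∈ S then 0 else pt (t j) with hd0
  have hd0in : ∀ j ∈ S, d0 j = 0 := fun j hj => by simp only [hd0, hj, if_true]
  have hd0out : ∀ j, j ∉ S → d0 j = pt (t j) := fun j hj => by simp only [hd0, hj, if_false]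
  -- coincidences
  have hco : ∀ β ∈ S, ∀ γ ∈ S, β ≠ γ → γ ∉ c β → ∃ x ∈ E β d0, x ∈ E γ d0 ∧
      2 * (1 / (m + 1 : ℝ)) ≤ |(h β).1 x - (h γ).1 x| := by
    intro β hβ γ hγ hβγ hγc
    by_contra hcon
    push Not at hcon
    obtain ⟨f, hfv⟩ := interp (E β d0 ∪ E γ d0) fun x =>
      if x ∈ E β d0 then
        (if x ∈ E γ d0 then ((h β).1 x + (h γ).1 x) / 2 else (h β).1 x)
      else (h γ).1 x
    have g1 := (hctl β (Function.update d0 γ 1) (by
      intro j hj hjβ
      obtain ⟨h4, h5⟩ := hSt β hβ j hj hjβ
      have h6 : j ≠ γ := fun h => h4 (h ▸ hγ)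
      rw [Function.update_of_ne h6, hd0out j h4, h5]) f (by
      rw [hE β γ hγc d0, hnS β hβ]
      intro x hx
      rw [hfv _ (Finset.mem_union_left _ hx), if_pos hx]
      by_cases hx2 : x ∈ E γ d0
      · rw [if_pos hx2]
        have := hcon _ hx hx2
        rw [abs_lt] at this ⊢
        constructor <;> linarith [this.1, this.2]
      · rw [if_neg hx2, sub_self, abs_zero]
        exact hδ)).1
    have e0 : Function.update (Function.update d0 γ 1) β 0 = Function.update d0 γ 1 := by
      funext j
      by_cases hjβ : j = β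
      · subst hjβ
        rw [Function.update_self, Function.update_of_ne hβγ, hd0in _ hβ]
      · rw [Function.update_of_ne hjβ]
    rw [e0] at g1
    have g2 := (hctl γ d0 (by
      intro j hj hjβ
      obtain ⟨h4, h5⟩ := hSt γ hγ j hj hjβ
      rw [hd0out j h4, h5]) f (by
      rw [hnS γ hγ]
      intro x hx
      rw [hfv _ (Finset.mem_union_right _ hx)]
      by_cases hx2 : x ∈ E β d0
      · rw [if_pos hx2, if_pos hx]
        have := hcon _ hx2 hx
        rw [abs_lt] at this ⊢
        constructor <;> linarith [this.1, this.2]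
      · rw [if_neg hx2, sub_self, abs_zero]
        exact hδ)).2
    have e3 : Φ (Function.update d0 γ 1) (h β) ≤ 0 := hf _ _ (by
      rw [Function.update_of_ne hβγ, hd0in _ hβ])
    have e4 : 1 ≤ Φ (Function.update d0 γ 1) (h γ) := ht _ _ (by
      rw [Function.update_self])
    rw [abs_le] at g1 g2
    linarith [g1.1, g1.2, g2.1, g2.2]
  -- Delta system
  obtain ⟨S1, R, hS1S, hS1, hR, hdis⟩ := delta_system (fun β => E β d0) S hS
  obtain ⟨r, hr⟩ := uncountable_fiber
    (fun β => fun x : R => ⌊(h β).1 x * (m + 1 : ℝ)⌋) S1 hS1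
  obtain ⟨β, hβ⟩ : {i ∈ S1 | (fun x : R => ⌊(h i).1 x * (m + 1 : ℝ)⌋) = r}.Nonempty := by
    by_contra hne
    rw [not_nonempty_iff_eq_empty] at hne
    rw [hne] at hr
    exact hr countable_empty
  obtain ⟨γ, hγ, hγc⟩ : ∃ γ ∈ {i ∈ S1 | (fun x : R => ⌊(h i).1 x * (m + 1 : ℝ)⌋) = r},
      γ ∉ insert β (c β) := by
    by_contra hcon
    push Not at hcon
    exact hr (((hc β).insert β).mono hcon)
  have hne : β ≠ γ := fun h => hγc (by rw [h]; exact mem_insert _ _)
  obtain ⟨x, hxβ, hxγ, hx⟩ := hco β (hS1S hβ.1) γ (hS1S hγ.1) hne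
    fun h => hγc (mem_insert_of_mem _ h)
  have hxR := hdis β hβ.1 γ hγ.1 hne x hxβ hxγ
  have h3 : ⌊(h β).1 x * (m + 1 : ℝ)⌋ = ⌊(h γ).1 x * (m + 1 : ℝ)⌋ := by
    have e1 := congrFun hβ.2 ⟨x, hxR⟩
    have e2 := congrFun hγ.2 ⟨x, hxR⟩
    simp only at e1 e2
    rw [e1, e2]
  have h4 : |(h β).1 x * (m + 1 : ℝ) - (h γ).1 x * (m + 1 : ℝ)| < 1 :=
    Int.abs_sub_lt_one_of_floor_eq_floor h3
  rw [← sub_mul, abs_mul, abs_of_pos (by positivity : (0 : ℝ) < m + 1)] at h4
  have h5 : |(h β).1 x - (h γ).1 x| < 1 / (m + 1 : ℝ) := by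
    rw [lt_div_iff₀ (by positivity)]
    exact h4
  linarith

/-- Let `X` be compact and t-embedded in a Tychonoff cube. If `X` contains no uncountable Tychonoff
cube, then `X` is metrizable. -/
theorem metrizable_of_cubeI {X : Type u} [TopologicalSpace X] [CompactSpace X] [T2Space X]
    (hN : ∀ (S : Type v) [Uncountable S] (g : (S → unitInterval) → X), Continuous g →
      ¬ Function.Injective g)
    {κ : Type v} (e : X → κ → unitInterval) (he : Continuous e)
    (ψ : Cp X → Cp (κ → unitInterval)) (hψ : Continuous ψ)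
    (hψe : ∀ f x, (ψ f).1 (e x) = f.1 x) : TopologicalSpace.MetrizableSpace X := by
  classical
  let Ψ : (κ → unitInterval) → Cp X → ℝ := fun d f => (ψ f).1 d
  have hΨ1 : ∀ f, Continuous fun d => Ψ d f := fun f => (ψ f).2
  have hΨ2 : ∀ d, Continuous (Ψ d) := fun d =>
    (continuous_apply d).comp (continuous_subtype_val.comp hψ)
  set S : Set κ := {β | ∃ f, ∃ d d' : κ → unitInterval, (∀ j, j ≠ β → d j = d' j) ∧
    Ψ d f ≠ Ψ d' f} with hS
  by_cases hc : S.Countable
  · -- countably many coordinates are enough
    have h1 : ∀ f d d', (∀ β ∈ S, d β = d' β) → Ψ d f = Ψ d' f := by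
      intro f d d' hdd
      have h2 : ∀ G : Finset κ, ∀ d1 : κ → unitInterval, (∀ β ∈ S, d1 β = d' β) →
          Ψ (G.piecewise d' d1) f = Ψ d1 f := by
        intro G
        induction G using Finset.induction_on with
        | empty => intro d1 _; rw [Finset.piecewise_empty]
        | insert a G ha ih =>
          intro d1 hd1
          rw [Finset.piecewise_insert]
          have h3 : ∀ d2 : κ → unitInterval, (∀ β ∈ S, d2 β = d' β) →
              Ψ (Function.update d2 a (d' a)) f = Ψ d2 f := by
            intro d2 hd2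
            by_cases h4 : d2 a = d' a
            · rw [← h4, Function.update_eq_self]
            · have h5 : a ∉ S := fun h => h4 (hd2 a h)
              by_contra h7
              exact h5 ⟨f, _, _, fun j hj => Function.update_of_ne hj _ _, h7⟩
          rw [h3, ih d1 hd1]
          intro β hβ
          by_cases hβG : β ∈ G
          · rw [Finset.piecewise_eq_of_mem _ _ _ hβG]
          · rw [Finset.piecewise_eq_of_notMem _ _ _ hβG, hd1 β hβ]
      have h3 : d' ∈ closure {z | Ψ z f = Ψ d f} := by
        rw [mem_closure_iff]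
        intro U hU hd'
        obtain ⟨G, hG⟩ := exists_cylI hU hd'
        refine ⟨G.piecewise d' d, hG _ fun j hj => Finset.piecewise_eq_of_mem _ _ _ hj, ?_⟩
        exact h2 G d hdd
      have h4 : IsClosed {z | Ψ z f = Ψ d f} := isClosed_eq (hΨ1 f) continuous_const
      rw [h4.closure_eq] at h3
      exact h3.symm
    have : Countable S := hc.to_subtype
    let r : X → (S → unitInterval) := fun x t => e x t
    have hr : Continuous r := continuous_pi fun t => (continuous_apply (t : κ)).comp he
    have hri : Function.Injective r := by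
      intro x x' hxx
      by_contra hne
      obtain ⟨f, hf⟩ := interp {x, x'} fun y => if y = x then 0 else 1
      have h5 : f.1 x = 0 := by rw [hf x (by simp), if_pos rfl]
      have h6 : f.1 x' = 1 := by rw [hf x' (by simp), if_neg (Ne.symm hne)]
      have h8 : Ψ (e x) f = Ψ (e x') f := by
        apply h1
        intro β hβ
        exact congrFun hxx ⟨β, hβ⟩
      have h10 : ∀ x, Ψ (e x) f = f.1 x := fun x => hψe f x
      rw [h10, h10, h5, h6] at h8
      exact zero_ne_one h8
    exact (hr.isClosedEmbedding hri).isEmbedding.metrizableSpace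
  · exfalso
    have h1 : ∀ β ∈ S, ∃ (pq : ℚ × ℚ) (G : Finset κ) (s : κ → ℕ) (a b : unitInterval) (f : Cp X),
        (∀ d : κ → unitInterval, (∀ j ∈ G, j ≠ β → d j = pt (s j)) → d β = a →
          (pq.1 : ℝ) * Ψ d f + pq.2 ≤ 0) ∧
        (∀ d : κ → unitInterval, (∀ j ∈ G, j ≠ β → d j = pt (s j)) → d β = b →
          1 ≤ (pq.1 : ℝ) * Ψ d f + pq.2) := by
      rintro β ⟨f, d0, d1, hd01, hne⟩
      have hcu : ∀ x : unitInterval,
          Continuous fun d : κ → unitInterval => Ψ (Function.update d β x) f := fun x =>
        (hΨ1 f).comp (continuous_id.update β continuous_const)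
      have hopen : IsOpen {d : κ → unitInterval |
          Ψ (Function.update d β (d0 β)) f ≠ Ψ (Function.update d β (d1 β)) f} :=
        isOpen_ne_fun (hcu _) (hcu _)
      have hmem : d0 ∈ {d : κ → unitInterval |
          Ψ (Function.update d β (d0 β)) f ≠ Ψ (Function.update d β (d1 β)) f} := by
        have e1 : Function.update d0 β (d1 β) = d1 := by
          funext j
          by_cases hj : j = β
          · subst hj
            rw [Function.update_self]
          · rw [Function.update_of_ne hj, hd01 j hj]
        show Ψ (Function.update d0 β (d0 β)) f ≠ Ψ (Function.update d0 β (d1 β)) f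
        rw [e1, Function.update_eq_self]
        exact hne
      obtain ⟨s, hs⟩ := exists_pt hopen ⟨d0, hmem⟩
      have huv' : Ψ (Function.update (fun j => pt (s j)) β (d0 β)) f ≠
        Ψ (Function.update (fun j => pt (s j)) β (d1 β)) f := hs
      set u := Ψ (Function.update (fun j => pt (s j)) β (d0 β)) f with hu
      set v := Ψ (Function.update (fun j => pt (s j)) β (d1 β)) f with hv
      obtain ⟨p, hp⟩ : ∃ p : ℚ, 1 < (p : ℝ) * (v - u) := by
        rcases lt_or_gt_of_ne huv' with h2 | h2
        · obtain ⟨p, hp⟩ := exists_rat_gt (1 / (v - u))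
          refine ⟨p, ?_⟩
          rwa [div_lt_iff₀ (sub_pos.2 h2)] at hp
        · obtain ⟨p, hp⟩ := exists_rat_lt (1 / (v - u))
          refine ⟨p, ?_⟩
          rwa [lt_div_iff_of_neg (sub_neg.2 h2)] at hp
      obtain ⟨q', hq1, hq2⟩ := exists_rat_btwn (show 1 - (p : ℝ) * v < -((p : ℝ) * u) by linarith)
      have hc1 : Continuous fun d => (p : ℝ) * Ψ d f + q' :=
        ((continuous_const.mul (hΨ1 f)).add continuous_const)
      obtain ⟨G1, hG1⟩ := exists_cylI (isOpen_lt hc1 continuous_const)
        (show Function.update (fun j => pt (s j)) β (d0 β) ∈ {d | (p : ℝ) * Ψ d f + q' < 0} by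
          show (p : ℝ) * u + q' < 0
          linarith)
      obtain ⟨G2, hG2⟩ := exists_cylI (isOpen_lt continuous_const hc1)
        (show Function.update (fun j => pt (s j)) β (d1 β) ∈ {d | 1 < (p : ℝ) * Ψ d f + q'} by
          show 1 < (p : ℝ) * v + q'
          linarith)
      refine ⟨(p, q'), G1 ∪ G2, s, d0 β, d1 β, f, ?_, ?_⟩
      · intro d hd hdβ
        refine le_of_lt (hG1 d fun j hj => ?_)
        by_cases hjβ : j = β
        · subst hjβ; rw [hdβ, Function.update_self]
        · rw [Function.update_of_ne hjβ, hd j (Finset.mem_union_left _ hj) hjβ]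
      · intro d hd hdβ
        refine le_of_lt (hG2 d fun j hj => ?_)
        by_cases hjβ : j = β
        · subst hjβ; rw [hdβ, Function.update_self]
        · rw [Function.update_of_ne hjβ, hd j (Finset.mem_union_right _ hj) hjβ]
    have : Nonempty (Cp X) := ⟨⟨fun _ => 0, continuous_const⟩⟩
    choose! pq G s a b f hneg hpos using h1
    obtain ⟨c, hcf⟩ := uncountable_fiber pq S hc
    obtain ⟨S', hS'S, hS', t, ht⟩ := amalgN _ hcf G s
    have hunc : Uncountable S' := by
      rw [← not_countable_iff]
      exact fun h => hS' (Set.countable_coe_iff.1 h)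
    set ε : (S' → unitInterval) → (κ → unitInterval) := fun e' j =>
      if hj : j ∈ S' then lin (a j) (b j) (e' ⟨j, hj⟩) else pt (t j) with hε
    have hεc : Continuous ε := by
      apply continuous_pi
      intro j
      by_cases hj : j ∈ S'
      · simp only [hε, hj, dif_pos]
        exact (continuous_lin _ _).comp (continuous_apply _)
      · simp only [hε, hj, dif_neg, not_false_eq_true]
        exact continuous_const
    have hεout : ∀ e', ∀ j, j ∉ S' → ε e' j = pt (t j) := by
      intro e' j hj
      simp only [hε, hj, dif_neg, not_false_eq_true]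
    have hεin : ∀ e' (j : S'), ε e' j = lin (a j) (b j) (e' j) := by
      intro e' j
      simp only [hε, Subtype.coe_prop, dif_pos, Subtype.coe_eta]
    refine coreI hN (J := S') (fun e' f' => (c.1 : ℝ) * Ψ (ε e') f' + c.2) ?_ ?_
      (fun β => f β) ?_ ?_
    · intro f'
      exact (continuous_const.mul ((hΨ1 f').comp hεc)).add continuous_const
    · intro e'
      exact (continuous_const.mul (hΨ2 _)).add continuous_const
    · intro d β hd
      have h2 := hneg β (hS'S β.2).1 (ε d) (by
        intro j hj hjβ
        obtain ⟨h4, h5⟩ := ht β β.2 j hj hjβ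
        rw [hεout _ _ h4, h5]) (by rw [hεin, hd, lin_zero])
      rw [(hS'S β.2).2] at h2
      exact h2
    · intro d β hd
      have h2 := hpos β (hS'S β.2).1 (ε d) (by
        intro j hj hjβ
        obtain ⟨h4, h5⟩ := ht β β.2 j hj hjβ
        rw [hεout _ _ h4, h5]) (by rw [hεin, hd, lin_one])
      rw [(hS'S β.2).2] at h2
      exact h2

end Pool.Agent.H729
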