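import Pool.Agent.H770.GS.UQ

/-!
# UQ3: adding a coordinate, integration by parts (helper729 for helper770)
-/

set_option autoImplicit false

open MeasureTheory Set intervalIntegral

namespace Pool.Agent.H729.UQ3

open Pool.Agent.H770.GS

theorem step_core (r z ζ : ℝ) (g k rest : ℝ → ℝ) (hgd : ∀ x, HasDerivAt g (-k x) x)
    (hk : Continuous k) (hrest : Continuous rest) (h : ∀ v, ζ * k v = v * g v + rest v) (v : ℝ) :
    (ζ + z ^ 2) * cv r z k v = v * cv r z g v +
      (cv r z rest v + z * W r * ∫ u in (v - z * r)..(v + z * r), k u) := by
  have hW := W_cont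
  have hg : Continuous g := continuous_iff_continuousAt.2 fun x => (hgd x).continuousAt
  have i1 : Continuous (fun u => W u * g (v + z * u)) := by fun_prop
  have i2 : Continuous (fun u => u * (W u * g (v + z * u))) := by fun_prop
  have i3 : Continuous (fun u => W u * k (v + z * u)) := by fun_prop
  have i4 : Continuous (fun u => W u * rest (v + z * u)) := by fun_prop
  have i6 : Continuous (fun u => -(u * (W u * g (v + z * u)))) := i2.neg
  have i7 : Continuous (fun u => z * (W u * k (v + z * u))) := i3.const_mul z
  have hk' : Continuous (fun x => -k x) := hk.neg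
  -- the equation
  have e1 : ζ * cv r z k v = v * cv r z g v + z * (∫ u in (-r)..r, u * (W u * g (v + z * u))) + cv r z rest v := by
    unfold cv
    rw [← intervalIntegral.integral_const_mul, ← intervalIntegral.integral_const_mul,
      ← intervalIntegral.integral_const_mul, ← intervalIntegral.integral_add, ← intervalIntegral.integral_add]
    · refine intervalIntegral.integral_congr fun u _ => ?_
      have h1 := h (v + z * u)
      show ζ * (W u * k (v + z * u)) = v * (W u * g (v + z * u)) + z * (u * (W u * g (v + z * u))) +
        W u * rest (v + z * u)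
      linear_combination (W u) * h1
    · exact ((i1.const_mul v).add (i2.const_mul z)).intervalIntegrable _ _
    · exact i4.intervalIntegrable _ _
    · exact (i1.const_mul v).intervalIntegrable _ _
    · exact (i2.const_mul z).intervalIntegrable _ _
  -- integration by parts
  have hd : ∀ u ∈ Set.uIcc (-r) r, HasDerivAt (fun u => W u * g (v + z * u))
      (-(u * (W u * g (v + z * u))) - z * (W u * k (v + z * u))) u := by
    intro u _
    have h1 : HasDerivAt (fun u : ℝ => v + z * u) z u := by
      have h2 := ((hasDerivAt_id u).const_mul z).const_add v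
      simpa using h2
    have h2 : HasDerivAt (fun u => g (v + z * u)) (-k (v + z * u) * z) u := (hgd (v + z * u)).comp u h1
    refine ((W_deriv u).mul h2).congr_deriv ?_
    ring
  have i5 : Continuous (fun u => -(u * (W u * g (v + z * u))) - z * (W u * k (v + z * u))) :=
    i6.sub i7
  have e2 := intervalIntegral.integral_eq_sub_of_hasDerivAt hd (i5.intervalIntegrable _ _)
  have e3 : ∫ u in (-r)..r, (-(u * (W u * g (v + z * u))) - z * (W u * k (v + z * u))) =
      -(∫ u in (-r)..r, u * (W u * g (v + z * u))) - z * cv r z k v := by
    unfold cv
    rw [intervalIntegral.integral_sub (i6.intervalIntegrable _ _) (i7.intervalIntegrable _ _),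
      intervalIntegral.integral_neg, intervalIntegral.integral_const_mul]
  have e4 : ∫ u in (v - z * r)..(v + z * r), k u = g (v - z * r) - g (v + z * r) := by
    have h1 := intervalIntegral.integral_eq_sub_of_hasDerivAt (a := v - z * r) (b := v + z * r)
      (fun x _ => hgd x) (hk'.intervalIntegrable _ _)
    rw [intervalIntegral.integral_neg] at h1
    linarith
  rw [e3, W_even] at e2
  have e5 : v + z * -r = v - z * r := by ring
  rw [e5] at e2
  rw [e4]
  linear_combination e1 - z * e2

/-- **UQ3.** -/
theorem uq3 : Pool.Agent.H770.GS.S_step := by
  intro r z ζ g k rest _ hgd hk hrest h v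
  exact step_core r z ζ g k rest hgd hk hrest h v

end Pool.Agent.H729.UQ3
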